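import Mathlib
import Pool.Agent.Helper948.Tile.Final

set_option autoImplicit false

namespace Pool.Agent.Results.MP_74d590_lc.ContTilingUndecidable

/-! ## Definitions used in the statement -/

/-- The shift action of `ℤ^n` on `2^(ℤ^n) = ((Fin n → ℤ) → Bool)`: `(g · x)(h) = x(h + g)`. -/
def shift {n : ℕ} (g : Fin n → ℤ) (x : (Fin n → ℤ) → Bool) : (Fin n → ℤ) → Bool :=
  fun h => x (h + g)

/-- The free part `F(2^(ℤ^n))`, with the subspace topology of the product topology. -/
abbrev Free (n : ℕ) : Type :=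
  {x : (Fin n → ℤ) → Bool // ∀ g : Fin n → ℤ, g ≠ 0 → shift g x ≠ x}

/-- `A T` is the set of the base points of the copies of the tile `T`. The translates `g + T`, for
`T ∈ 𝒯` and `g ∈ A T`, form a tiling of `ℤ^n`: every point `u` lies in exactly one of them. -/
def IsTiling {n : ℕ} (𝒯 : Set (Finset (Fin n → ℤ)))
    (A : Finset (Fin n → ℤ) → Set (Fin n → ℤ)) : Prop :=
  ∀ u : Fin n → ℤ, ∃! p : (Fin n → ℤ) × Finset (Fin n → ℤ),
    p.2 ∈ 𝒯 ∧ p.1 ∈ A p.2 ∧ u - p.1 ∈ p.2

/-- The set of tiles `𝒯` tiles `ℤ^n`. -/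
def TilesSpace {n : ℕ} (𝒯 : Set (Finset (Fin n → ℤ))) : Prop := ∃ A, IsTiling 𝒯 A

/-- `F(2^(ℤ^n))` admits a continuous tiling with `𝒯`: there are relatively clopen sets `C T`,
`T ∈ 𝒯`, such that for every `x` the translates `g + T` with `g · x ∈ C T` tile `ℤ^n`. -/
def HasContTiling {n : ℕ} (𝒯 : Set (Finset (Fin n → ℤ))) : Prop :=
  ∃ C : Finset (Fin n → ℤ) → Set (Free n), (∀ T ∈ 𝒯, IsClopen (C T)) ∧
    ∀ x : Free n, IsTiling 𝒯 (fun T => {g | ∃ y ∈ C T, y.1 = shift g x.1})

/-- The finite set of tiles given by an explicit list of lists of vectors. -/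
def tileSet {n : ℕ} (L : List (List (Fin n → ℤ))) : Set (Finset (Fin n → ℤ)) :=
  {T | ∃ l ∈ L, T = l.toFinset}

/-- The (partial) algorithm `φ` answers correctly on the input `L` whether there is a continuous
tiling; in particular it halts on `L`. -/
def Correct {n : ℕ} (φ : List (List (Fin n → ℤ)) →. Bool) (L : List (List (Fin n → ℤ))) : Prop :=
  (HasContTiling (tileSet L) → true ∈ φ L) ∧ (¬ HasContTiling (tileSet L) → false ∈ φ L)

/-! ## The proof -/

theorem cont_iff {n : ℕ} (𝒯 : Set (Finset (Fin n → ℤ))) :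
    HasContTiling 𝒯 ↔ Pool.Agent.Helper948.Tile.HasContTiling 𝒯 := by
  have key : ∀ (C : Finset (Fin n → ℤ) → Set (Free n)) (x : Free n),
      (fun T => {g | ∃ y ∈ C T, y.1 = shift g x.1}) =
        (fun T => {g : Fin n → ℤ | (Pool.Agent.Helper948.Tile.act g x : Free n) ∈ C T}) := by
    intro C x
    funext T
    ext g
    constructor
    · rintro ⟨y, hy, e⟩
      have : y = (Pool.Agent.Helper948.Tile.act g x : Free n) := Subtype.ext e
      change (Pool.Agent.Helper948.Tile.act g x : Free n) ∈ C T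
      rw [← this]
      exact hy
    · intro h
      exact ⟨_, h, rfl⟩
  constructor
  · rintro ⟨C, hC, hx⟩
    refine ⟨C, hC, fun x => ?_⟩
    have h1 := hx x
    rw [key C x] at h1
    exact h1
  · rintro ⟨C, hC, hx⟩
    refine ⟨C, hC, fun x => ?_⟩
    rw [key C x]
    exact hx x

/-- For every `n ≥ 2`, no algorithm decides which finite sets of tiles (nonempty finite subsets of
`ℤ^n`) admit a continuous tiling of `F(2^(ℤ^n))` (Q1); and no algorithm does so which is only
required to halt, and to be correct, on the sets of tiles which tile `ℤ^n` (Q2). -/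
theorem result (n : ℕ) (hn : 2 ≤ n) :
    (¬ ∃ φ : List (List (Fin n → ℤ)) →. Bool, Partrec φ ∧
      ∀ L : List (List (Fin n → ℤ)), (∀ l ∈ L, l ≠ []) → Correct φ L) ∧
    (¬ ∃ φ : List (List (Fin n → ℤ)) →. Bool, Partrec φ ∧
      ∀ L : List (List (Fin n → ℤ)), (∀ l ∈ L, l ≠ []) → TilesSpace (tileSet L) →
        Correct φ L) := by
  have main : ¬ ∃ φ : List (List (Fin n → ℤ)) →. Bool, Partrec φ ∧
      ∀ L : List (List (Fin n → ℤ)), (∀ l ∈ L, l ≠ []) → TilesSpace (tileSet L) →
        Correct φ L := by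
    rintro ⟨φ, hφ, h⟩
    refine Pool.Agent.Helper948.Tile.undecidable n hn ⟨φ, hφ, fun L h1 h2 => ?_⟩
    have h3 := h L h1 h2
    unfold Correct at h3
    rw [cont_iff] at h3
    exact h3
  refine ⟨?_, main⟩
  rintro ⟨φ, hφ, h⟩
  exact main ⟨φ, hφ, fun L h1 _ => h L h1⟩

end Pool.Agent.Results.MP_74d590_lc.ContTilingUndecidable
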